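import Pool.Agent.Q109.K34.Graph

namespace Pool.Agent.Results.MP_77ae25_co.ThetaPrismFree

open SimpleGraph

/-- A hole: a vertex set inducing a cycle of length at least 4. -/
def IsHole {V : Type} (G : SimpleGraph V) (S : Set V) : Prop :=
  ∃ n, 4 ≤ n ∧ Nonempty (G.induce S ≃g cycleGraph n)

/-- The vertex set of a walk. -/
def vs {V : Type} {G : SimpleGraph V} {a b : V} (p : G.Walk a b) : Set V := {v | v ∈ p.support}

/-- `G` contains a theta. -/
def HasTheta {V : Type} (G : SimpleGraph V) : Prop :=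
  ∃ (a b : V) (P : Fin 3 → G.Walk a b), a ≠ b ∧ ¬ G.Adj a b ∧
    (∀ i, (P i).IsPath ∧ 2 ≤ (P i).length) ∧
    (∀ i j, i ≠ j → vs (P i) ∩ vs (P j) = {a, b}) ∧
    (∀ i j, i ≠ j → IsHole G (vs (P i) ∪ vs (P j)))

/-- `G` contains a prism. -/
def HasPrism {V : Type} (G : SimpleGraph V) : Prop :=
  ∃ (a b : Fin 3 → V) (P : ∀ i, G.Walk (a i) (b i)),
    (∀ i j, i ≠ j → G.Adj (a i) (a j)) ∧ (∀ i j, i ≠ j → G.Adj (b i) (b j)) ∧
    (∀ i j, a i ≠ b j) ∧
    (∀ i, (P i).IsPath) ∧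
    (∀ i j, i ≠ j → Disjoint (vs (P i)) (vs (P j))) ∧
    (∀ i j, i ≠ j → IsHole G (vs (P i) ∪ vs (P j)))

/-- `H` is an induced minor of `G`: there are pairwise disjoint connected vertex sets, one for
each vertex of `H`, two of which are joined by an edge exactly when the vertices are adjacent. -/
def IsInducedMinor {W V : Type} (H : SimpleGraph W) (G : SimpleGraph V) : Prop :=
  ∃ bag : W → Set V, (∀ x, (G.induce (bag x)).Connected) ∧
    (∀ x y, x ≠ y → Disjoint (bag x) (bag y)) ∧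
    (∀ x y, x ≠ y → (H.Adj x y ↔ ∃ u ∈ bag x, ∃ v ∈ bag y, G.Adj u v))

theorem star_connected {V : Type} {G : SimpleGraph V} (S : Set V) (c : V) (hc : c ∈ S)
    (h : ∀ v ∈ S, v ≠ c → G.Adj v c) : (G.induce S).Connected := by
  have key : ∀ v : S, (G.induce S).Reachable v ⟨c, hc⟩ := by
    rintro ⟨v, hv⟩
    by_cases hvc : v = c
    · subst hvc; exact Reachable.refl _
    · have : (G.induce S).Adj ⟨v, hv⟩ ⟨c, hc⟩ := h v hv hvc
      exact this.reachable
  have : Nonempty S := ⟨⟨c, hc⟩⟩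
  exact Connected.mk (fun u v => (key u).trans (key v).symm)

/-- the bags, as lists -/
def bagL : Fin 3 ⊕ Fin 4 → List (Fin 16)
  | .inl 0 => [0, 1, 2]
  | .inl 1 => [3, 4, 5]
  | .inl 2 => [6, 7, 8]
  | .inr 0 => [9, 10]
  | .inr 1 => [11, 12]
  | .inr 2 => [13, 14]
  | .inr 3 => [15]

theorem bag_star : ∀ x, (bagL x).head? ≠ none ∧
    ∀ c ∈ (bagL x).head?, ∀ v ∈ bagL x, v ≠ c → Q109.K34.G.Adj v c := by
  decide +kernel

theorem bag_disj : ∀ x y, x ≠ y → ∀ v ∈ bagL x, v ∉ bagL y := by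
  decide +kernel

theorem bag_adj' : ∀ x y : Fin 3 ⊕ Fin 4, x ≠ y →
    (((x.isLeft = true ∧ y.isRight = true) ∨ (x.isRight = true ∧ y.isLeft = true)) ↔
      ∃ u ∈ bagL x, ∃ v ∈ bagL y, Q109.K34.G.Adj u v) := by
  decide +kernel

theorem bag_adj (x y : Fin 3 ⊕ Fin 4) (hxy : x ≠ y) :
    (completeBipartiteGraph (Fin 3) (Fin 4)).Adj x y ↔
      ∃ u ∈ bagL x, ∃ v ∈ bagL y, Q109.K34.G.Adj u v := by
  rw [← bag_adj' x y hxy, completeBipartiteGraph_adj]

/-- There is a graph (on 16 vertices) with no theta and no prism that has `K_{3,4}` as an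
induced minor. -/
theorem result : ∃ G : SimpleGraph (Fin 16), ¬ HasTheta G ∧ ¬ HasPrism G ∧
    IsInducedMinor (completeBipartiteGraph (Fin 3) (Fin 4)) G := by
  refine ⟨Q109.K34.G, ?_, ?_, ?_⟩
  · rintro ⟨a, b, P, hab, hnadj, -, hint, hhole⟩
    exact Q109.K34.no_theta (vs (P 0)) (vs (P 1)) (vs (P 2)) a b hab hnadj
      (hint 0 1 (by decide)) (hint 0 2 (by decide)) (hint 1 2 (by decide))
      (hhole 0 1 (by decide)) (hhole 0 2 (by decide)) (hhole 1 2 (by decide))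
  · rintro ⟨a, b, P, -, -, -, -, hint, hhole⟩
    exact Q109.K34.no_prism (vs (P 0)) (vs (P 1)) (vs (P 2))
      (hint 0 1 (by decide)) (hint 0 2 (by decide)) (hint 1 2 (by decide))
      (hhole 0 1 (by decide)) (hhole 0 2 (by decide)) (hhole 1 2 (by decide))
  · refine ⟨fun x => {v | v ∈ bagL x}, ?_, ?_, ?_⟩
    · intro x
      obtain ⟨h1, h2⟩ := bag_star x
      obtain ⟨c, hc⟩ := Option.ne_none_iff_exists'.mp h1
      exact star_connected _ c (List.mem_of_head? hc) (fun v hv hvc => h2 c hc v hv hvc)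
    · intro x y hxy
      rw [Set.disjoint_left]
      exact fun v hv hv' => bag_disj x y hxy v hv hv'
    · intro x y hxy
      exact bag_adj x y hxy

end Pool.Agent.Results.MP_77ae25_co.ThetaPrismFree
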